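import Mathlib

/-!
# When is the lcm-type Lucas binomial coefficient equal to the Lucas binomial coefficient?

The set of `n` with `g ∣ U_n` is the set of multiples of a rank `r(g)` (or `{0}`).  Counting prime
powers, `|binom|` and the lcm-analogue have the same `p`-adic valuation iff for every `a ≥ 1` with
`r = r(p^a) ≤ k` the window `(n-k, n]` contains exactly `⌊k/r⌋` multiples of `r`, that is
`k mod r ≤ n mod r`.  The ranks of prime powers are the `d ≥ 2` for which `|U_d|` is not the lcm of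
the `|U_e|`, `e` a proper divisor of `d`.  For positive discriminant the homogeneous cyclotomic
value `Φ_d(α, β)` is an integer of absolute value `> 1` for all `d ≥ 3`, so every `d ≥ 3` is such a
rank, and `d = 2` is one iff `|P| ≠ 1`.
-/

set_option autoImplicit false

namespace Pool.Agent.Results.MP_763eff_nt.LcmBinomial

open Finset

/-- The Lucas sequence `U(P,Q)`. -/
def U (P Q : ℤ) : ℕ → ℤ
  | 0 => 0
  | 1 => 1
  | (n + 2) => P * U P Q (n + 1) - Q * U P Q n

/-- The standing assumptions of the problem on `(P,Q)`. -/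
structure Admissible (P Q : ℤ) : Prop where
  ne_zero : P * Q ≠ 0
  disc : P ^ 2 - 4 * Q ≠ 0
  coprime : IsCoprime P Q
  not_root : ∀ a b : ℂ, a + b = P → a * b = Q → ∀ m : ℕ, 1 ≤ m → (a / b) ^ m ≠ 1

/-- The `U`-binomial coefficient `U_n ⋯ U_{n-k+1} / (U_1 ⋯ U_k)`. -/
def binom (P Q : ℤ) (n k : ℕ) : ℚ :=
  (∏ i ∈ range k, (U P Q (n - i) : ℚ)) / ∏ i ∈ range k, (U P Q (i + 1) : ℚ)

/-- The lcm-analogue `lcm(U_n,…,U_{n-k+1}) / lcm(U_1,…,U_k)` (lcm's are positive). -/
def lcmBinom (P Q : ℤ) (n k : ℕ) : ℚ :=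
  (((range k).lcm fun i => (U P Q (n - i)).natAbs : ℕ) : ℚ) /
    (((range k).lcm fun i => (U P Q (i + 1)).natAbs : ℕ) : ℚ)

/-- `d` is *essential* for `U(P,Q)`: `|U_d|` is not the lcm of the `|U_e|`, `e` running over the
proper divisors of `d`. -/
def Essential (P Q : ℤ) (d : ℕ) : Prop :=
  (d.properDivisors.lcm fun e => (U P Q e).natAbs) ≠ (U P Q d).natAbs

section basic

variable {P Q : ℤ}

@[simp] theorem U_zero : U P Q 0 = 0 := rfl
@[simp] theorem U_one : U P Q 1 = 1 := rfl
theorem U_add_two (n : ℕ) : U P Q (n + 2) = P * U P Q (n + 1) - Q * U P Q n := rfl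

theorem U_add (m : ℕ) : ∀ n : ℕ,
    U P Q (m + n + 1) = U P Q (m + 1) * U P Q (n + 1) - Q * U P Q m * U P Q n
  | 0 => by simp
  | 1 => by
    rw [show m + 1 + 1 = m + 2 by ring, U_add_two]
    simp only [U_add_two, zero_add, Nat.reduceAdd, U_one, U_zero]
    ring
  | (n + 2) => by
    have h0 := U_add m n
    have h1 := U_add m (n + 1)
    rw [show m + (n + 2) + 1 = (m + n + 1) + 2 by ring, U_add_two,
      show m + n + 1 + 1 = m + (n + 1) + 1 by ring, h1, h0,
      show n + 2 + 1 = (n + 1) + 2 by ring, U_add_two, U_add_two,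
      show n + 1 + 1 = n + 2 by ring, U_add_two]
    ring

/-- Binet's formula. -/
theorem binet {R : Type*} [CommRing R] (a b : R) (h1 : a + b = P) (h2 : a * b = Q) : ∀ n : ℕ,
    (a - b) * (U P Q n : R) = a ^ n - b ^ n
  | 0 => by simp
  | 1 => by simp
  | (n + 2) => by
    have h0 := binet a b h1 h2 n
    have h3 := binet a b h1 h2 (n + 1)
    rw [U_add_two]
    push_cast
    rw [← h1, ← h2]
    have : (a - b) * ((a + b) * (U P Q (n + 1) : R) - a * b * (U P Q n : R)) =
      (a + b) * ((a - b) * (U P Q (n + 1) : R)) - a * b * ((a - b) * (U P Q n : R)) := by ring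
    rw [this, h0, h3]
    ring

theorem exists_roots (P Q : ℤ) : ∃ a b : ℂ, a + b = P ∧ a * b = Q := by
  obtain ⟨s, hs⟩ := IsAlgClosed.exists_pow_nat_eq ((P : ℂ) ^ 2 - 4 * Q) (n := 2) (by norm_num)
  refine ⟨(P + s) / 2, (P - s) / 2, by ring, ?_⟩
  have : (P + s) / 2 * ((P - s) / 2) = ((P : ℂ) ^ 2 - s ^ 2) / 4 := by ring
  rw [this, hs]
  ring

theorem U_ne_zero (h : Admissible P Q) {n : ℕ} (hn : 1 ≤ n) : U P Q n ≠ 0 := by
  obtain ⟨a, b, h1, h2⟩ := exists_roots P Q
  have hQ : Q ≠ 0 := right_ne_zero_of_mul h.ne_zero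
  have hb : b ≠ 0 := by
    rintro rfl
    apply hQ
    have : (Q : ℂ) = 0 := by rw [← h2, mul_zero]
    exact_mod_cast this
  intro h0
  have h3 := binet a b h1 h2 n
  rw [h0] at h3
  apply h.not_root a b h1 h2 n hn
  rw [div_pow, div_eq_one_iff_eq (pow_ne_zero _ hb)]
  have : a ^ n - b ^ n = 0 := by rw [← h3]; simp
  exact sub_eq_zero.1 this

theorem coprime_succ_Q (h : Admissible P Q) (n : ℕ) : IsCoprime (U P Q (n + 1)) Q := by
  have key : ∀ n : ℕ, ∃ c : ℤ, U P Q (n + 1) = P ^ n + Q * c := by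
    intro n
    induction n with
    | zero => exact ⟨0, by simp⟩
    | succ n ih =>
      obtain ⟨c, hc⟩ := ih
      refine ⟨P * c - U P Q n, ?_⟩
      rw [show n + 1 + 1 = n + 2 by ring, U_add_two, hc]
      ring
  obtain ⟨c, hc⟩ := key n
  rw [hc]
  exact (IsCoprime.add_mul_left_left_iff).2 (h.coprime.pow_left)

theorem coprime_succ (h : Admissible P Q) : ∀ n : ℕ, IsCoprime (U P Q n) (U P Q (n + 1))
  | 0 => by simpa using isCoprime_one_right
  | (n + 1) => by
    have ih := coprime_succ h n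
    have h1 : IsCoprime (U P Q (n + 1)) (Q * U P Q n) :=
      IsCoprime.mul_right (coprime_succ_Q h n) ih.symm
    rw [show n + 1 + 1 = n + 2 by ring, U_add_two]
    have : P * U P Q (n + 1) - Q * U P Q n = -(Q * U P Q n) + U P Q (n + 1) * P := by ring
    rw [this]
    exact (IsCoprime.add_mul_left_right_iff).2 h1.neg_right

theorem dvd_add_iff (h : Admissible P Q) {g : ℤ} {m : ℕ} (hm : g ∣ U P Q m) (n : ℕ) :
    g ∣ U P Q (m + n) ↔ g ∣ U P Q n := by
  rcases n with _ | n
  · simp [hm]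
  · rw [show m + (n + 1) = m + n + 1 by ring, U_add]
    have hc : IsCoprime g (U P Q (m + 1)) := (coprime_succ h m).of_isCoprime_of_dvd_left hm
    have h1 : g ∣ Q * U P Q m * U P Q n := (hm.mul_left _).mul_right _
    rw [dvd_sub_left h1]
    exact ⟨fun h2 => hc.dvd_of_dvd_mul_left h2, fun h2 => h2.mul_left _⟩

theorem dvd_mul_add_iff (h : Admissible P Q) {g : ℤ} {r : ℕ} (hr : g ∣ U P Q r) (q n : ℕ) :
    g ∣ U P Q (r * q + n) ↔ g ∣ U P Q n := by
  induction q with
  | zero => simp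
  | succ q ih =>
    rw [show r * (q + 1) + n = r + (r * q + n) by ring, dvd_add_iff h hr, ih]

/-- Either `g` divides no term, or `g ∣ U_n ↔ r ∣ n` for some `r ≥ 1`. -/
theorem rank_cases (h : Admissible P Q) (g : ℤ) :
    (∀ n, 1 ≤ n → ¬ g ∣ U P Q n) ∨ ∃ r, 1 ≤ r ∧ ∀ n, g ∣ U P Q n ↔ r ∣ n := by
  classical
  by_cases hex : ∃ n, 1 ≤ n ∧ g ∣ U P Q n
  · right
    obtain ⟨h1, h2⟩ := Nat.find_spec hex
    refine ⟨Nat.find hex, h1, fun n => ?_⟩
    have h3 : n = Nat.find hex * (n / Nat.find hex) + n % Nat.find hex := (Nat.div_add_mod _ _).symm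
    have h4 : g ∣ U P Q n ↔ g ∣ U P Q (n % Nat.find hex) := by
      conv_lhs => rw [h3]
      exact dvd_mul_add_iff h h2 _ _
    rw [h4, Nat.dvd_iff_mod_eq_zero]
    constructor
    · intro h5
      by_contra h6
      exact Nat.find_min hex (Nat.mod_lt n h1) ⟨Nat.pos_of_ne_zero h6, h5⟩
    · intro h5
      rw [h5]
      simp
  · left
    push Not at hex
    exact hex

theorem dvd_of_dvd (h : Admissible P Q) {m n : ℕ} (hmn : m ∣ n) : U P Q m ∣ U P Q n := by
  obtain ⟨q, rfl⟩ := hmn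
  have := (dvd_mul_add_iff h (dvd_refl (U P Q m)) q 0).2 (by simp)
  simpa using this

end basic

section arith

theorem term_le (x y : ℕ) (h : y ≤ x) : (if 1 ≤ x then 1 else 0) + y ≤ x + (if 1 ≤ y then 1 else 0) := by
  split_ifs <;> omega

theorem fact_eq {p B x : ℕ} (hp : p.Prime) (hx : x ≠ 0) (hxB : x < p ^ B) :
    x.factorization p = ∑ a ∈ Ico 1 B, (if p ^ a ∣ x then 1 else 0) := by
  rw [Nat.factorization_eq_card_pow_dvd_of_lt hp (Nat.pos_of_ne_zero hx) hxB, Finset.card_filter]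

theorem fact_lt {p B x : ℕ} (hp : p.Prime) (hx : x ≠ 0) (hxB : x < p ^ B) :
    x.factorization p < B := by
  by_contra h
  push Not at h
  have : p ^ B ∣ x := (hp.pow_dvd_iff_le_factorization hx).2 h
  exact absurd (Nat.le_of_dvd (Nat.pos_of_ne_zero hx) this) (by omega)

theorem fact_lcm {p B : ℕ} (hp : p.Prime) (hB : 1 ≤ B) (W : Finset ℕ) (u : ℕ → ℕ) (hu : ∀ j ∈ W, u j ≠ 0)
    (huB : ∀ j ∈ W, u j < p ^ B) :
    (W.lcm u).factorization p = ∑ a ∈ Ico 1 B, (if (∃ j ∈ W, p ^ a ∣ u j) then 1 else 0) := by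
  rw [Finset.factorization_lcm hu p]
  set s := W.sup fun j => (u j).factorization p with hs
  have h1 : ∀ a ∈ Ico 1 B, (∃ j ∈ W, p ^ a ∣ u j) ↔ a ≤ s := by
    intro a ha
    rw [Finset.mem_Ico] at ha
    rw [hs, Finset.le_sup_iff (by rw [Nat.bot_eq_zero]; omega)]
    constructor
    · rintro ⟨j, hj, h⟩
      exact ⟨j, hj, (hp.pow_dvd_iff_le_factorization (hu j hj)).1 h⟩
    · rintro ⟨j, hj, h⟩
      exact ⟨j, hj, (hp.pow_dvd_iff_le_factorization (hu j hj)).2 h⟩
  have h2 : s < B := by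
    rw [hs, Finset.sup_lt_iff (by rw [Nat.bot_eq_zero]; omega)]
    intro j hj
    exact fact_lt hp (hu j hj) (huB j hj)
  rw [Finset.sum_congr rfl (fun a ha => by rw [if_congr (h1 a ha) rfl rfl])]
  rw [← Finset.card_filter]
  have : (Ico 1 B).filter (fun a => a ≤ s) = Icc 1 s := by
    ext a
    simp only [Finset.mem_filter, Finset.mem_Ico, Finset.mem_Icc]
    omega
  rw [this]
  simp

theorem fact_prod {p B : ℕ} (hp : p.Prime) (W : Finset ℕ) (u : ℕ → ℕ) (hu : ∀ j ∈ W, u j ≠ 0)
    (huB : ∀ j ∈ W, u j < p ^ B) :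
    (∏ j ∈ W, u j).factorization p = ∑ a ∈ Ico 1 B, #{j ∈ W | p ^ a ∣ u j} := by
  rw [Nat.factorization_prod hu, Finsupp.coe_finsetSum, Finset.sum_apply]
  rw [Finset.sum_congr rfl (fun j hj => fact_eq hp (hu j hj) (huB j hj)), Finset.sum_comm]
  apply Finset.sum_congr rfl
  intro a _
  rw [Finset.card_filter]

theorem card_window (r m n : ℕ) (hmn : m ≤ n) : #{j ∈ Ioc m n | r ∣ j} = n / r - m / r := by
  have h1 := Nat.Ioc_filter_dvd_card_eq_div n r
  have h2 := Nat.Ioc_filter_dvd_card_eq_div m r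
  have h3 : #{j ∈ Ioc 0 n | r ∣ j} = #{j ∈ Ioc 0 m | r ∣ j} + #{j ∈ Ioc m n | r ∣ j} := by
    rw [← Finset.card_union_of_disjoint]
    · congr 1
      ext j
      simp only [Finset.mem_filter, Finset.mem_Ioc, Finset.mem_union]
      constructor
      · rintro ⟨⟨h4, h5⟩, h6⟩
        by_cases h7 : j ≤ m
        · left; exact ⟨⟨h4, h7⟩, h6⟩
        · right; exact ⟨⟨by omega, h5⟩, h6⟩
      · rintro (⟨⟨h4, h5⟩, h6⟩ | ⟨⟨h4, h5⟩, h6⟩)
        · exact ⟨⟨h4, by omega⟩, h6⟩
        · exact ⟨⟨by omega, h5⟩, h6⟩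
    · rw [Finset.disjoint_left]
      intro j h4 h5
      simp only [Finset.mem_filter, Finset.mem_Ioc] at h4 h5
      omega
  omega

theorem div_window {n k r : ℕ} (hr : 1 ≤ r) (hkn : k ≤ n) :
    (n / r - (n - k) / r = k / r ↔ k % r ≤ n % r) ∧ k / r ≤ n / r - (n - k) / r ∧
      (k < r → n / r - (n - k) / r ≤ 1) := by
  obtain ⟨m, rfl⟩ := Nat.exists_eq_add_of_le hkn
  have e1 : k + m - k = m := by omega
  rw [e1]
  have h1 := Nat.div_add_mod k r
  have h2 := Nat.div_add_mod m r
  have h3 := Nat.div_add_mod (k + m) r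
  have h4 := Nat.mod_lt k hr
  have h5 := Nat.mod_lt m hr
  have h6 := Nat.mod_lt (k + m) hr
  have key : r * ((k + m) / r) + (k + m) % r = r * (k / r) + r * (m / r) + (k % r + m % r) := by omega
  have hle : k / r + m / r ≤ (k + m) / r := Nat.div_add_div_le_add_div
  obtain ⟨c, hc⟩ := Nat.exists_eq_add_of_le hle
  rw [hc] at key
  have key2 : r * c + (k + m) % r = k % r + m % r := by
    have : r * (k / r + m / r + c) = r * (k / r) + r * (m / r) + r * c := by ring
    omega
  have hc1 : c ≤ 1 := by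
    by_contra h
    push Not at h
    have : r * 2 ≤ r * c := Nat.mul_le_mul_left r h
    omega
  have e2 : (k + m) / r - m / r = k / r + c := by
    rw [hc]
    generalize k / r = A
    generalize m / r = B
    omega
  rw [e2]
  refine ⟨?_, Nat.le_add_right _ _, ?_⟩
  · constructor
    · intro h7
      have : c = 0 := by omega
      subst this
      omega
    · intro h7
      rcases Nat.eq_zero_or_pos c with h8 | h8
      · rw [h8]; rfl
      · exfalso
        have : c = 1 := by omega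
        subst this
        omega
  · intro h7
    rw [Nat.div_eq_of_lt h7]
    omega

/-- The purely arithmetic core: a positive sequence `u` in which every `g` has a rank of
apparition. -/
theorem core (u : ℕ → ℕ) (hu : ∀ n, 1 ≤ n → u n ≠ 0)
    (hr : ∀ g : ℕ, (∀ n, 1 ≤ n → ¬ g ∣ u n) ∨ ∃ r, 1 ≤ r ∧ ∀ n, g ∣ u n ↔ r ∣ n)
    {n k : ℕ} (hk : 1 ≤ k) (hkn : k ≤ n) :
    ((Ioc (n - k) n).lcm u) * ∏ i ∈ Ioc 0 k, u i = (∏ j ∈ Ioc (n - k) n, u j) * (Ioc 0 k).lcm u ↔
      ∀ d, 2 ≤ d → d ≤ k → (d.properDivisors.lcm u ≠ u d) → k % d ≤ n % d := by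
  classical
  -- a bound for all terms
  set B : ℕ := (∑ j ∈ Ioc 0 n, u j) + 1 with hBdef
  have hB1 : 1 ≤ B := by omega
  have hlt : ∀ p, p.Prime → ∀ j, 1 ≤ j → j ≤ n → u j < p ^ B := by
    intro p hp j h1 h2
    have h3 : u j ≤ ∑ j ∈ Ioc 0 n, u j :=
      Finset.single_le_sum (f := u) (fun _ _ => Nat.zero_le _) (Finset.mem_Ioc.2 ⟨by omega, h2⟩)
    calc u j < B := by omega
      _ < p ^ B := Nat.lt_pow_self hp.one_lt
  have hW1 : ∀ j ∈ Ioc (n - k) n, 1 ≤ j ∧ j ≤ n := by
    intro j hj; rw [Finset.mem_Ioc] at hj; omega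
  have hW2 : ∀ j ∈ Ioc 0 k, 1 ≤ j ∧ j ≤ n := by
    intro j hj; rw [Finset.mem_Ioc] at hj; omega
  have hlcm0 : ∀ (W : Finset ℕ), (∀ j ∈ W, 1 ≤ j ∧ j ≤ n) → W.lcm u ≠ 0 := by
    intro W hW h0
    rw [Finset.lcm_eq_zero_iff] at h0
    obtain ⟨j, hj, hj0⟩ := h0
    exact hu j (hW j hj).1 hj0
  have hprod0 : ∀ (W : Finset ℕ), (∀ j ∈ W, 1 ≤ j ∧ j ≤ n) → ∏ j ∈ W, u j ≠ 0 :=
    fun W hW => Finset.prod_ne_zero_iff.2 fun j hj => hu j (hW j hj).1
  -- the criterion prime by prime
  have hprime : ∀ p, p.Prime →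
      ((((Ioc (n - k) n).lcm u) * ∏ i ∈ Ioc 0 k, u i).factorization p =
        ((∏ j ∈ Ioc (n - k) n, u j) * (Ioc 0 k).lcm u).factorization p ↔
      ∀ a ∈ Ico 1 B, ∀ r, 1 ≤ r → (∀ m, p ^ a ∣ u m ↔ r ∣ m) → r ≤ k → k % r ≤ n % r) := by
    intro p hp
    rw [Nat.factorization_mul (hlcm0 _ hW1) (hprod0 _ hW2),
      Nat.factorization_mul (hprod0 _ hW1) (hlcm0 _ hW2), Finsupp.add_apply, Finsupp.add_apply,
      fact_lcm hp hB1 _ u (fun j hj => hu j (hW1 j hj).1)
        (fun j hj => hlt p hp j (hW1 j hj).1 (hW1 j hj).2),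
      fact_lcm hp hB1 _ u (fun j hj => hu j (hW2 j hj).1)
        (fun j hj => hlt p hp j (hW2 j hj).1 (hW2 j hj).2),
      fact_prod hp _ u (fun j hj => hu j (hW1 j hj).1)
        (fun j hj => hlt p hp j (hW1 j hj).1 (hW1 j hj).2),
      fact_prod hp _ u (fun j hj => hu j (hW2 j hj).1)
        (fun j hj => hlt p hp j (hW2 j hj).1 (hW2 j hj).2),
      ← Finset.sum_add_distrib, ← Finset.sum_add_distrib]
    have hind : ∀ (W : Finset ℕ) (g : ℕ), (if (∃ j ∈ W, g ∣ u j) then 1 else 0) =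
        (if 1 ≤ #{j ∈ W | g ∣ u j} then 1 else 0) := by
      intro W g
      apply if_congr _ rfl rfl
      rw [Nat.succ_le_iff, Finset.card_pos]
      constructor
      · rintro ⟨j, hj, h⟩
        exact ⟨j, Finset.mem_filter.2 ⟨hj, h⟩⟩
      · rintro ⟨j, hj⟩
        exact ⟨j, (Finset.mem_filter.1 hj).1, (Finset.mem_filter.1 hj).2⟩
    have hx : ∀ g r, 1 ≤ r → (∀ m, g ∣ u m ↔ r ∣ m) →
        #{j ∈ Ioc (n - k) n | g ∣ u j} = n / r - (n - k) / r ∧ #{j ∈ Ioc 0 k | g ∣ u j} = k / r := by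
      intro g r _ h
      constructor
      · rw [← card_window r (n - k) n (by omega)]
        congr 1
        apply Finset.filter_congr
        intro j _
        exact h j
      · rw [← Nat.Ioc_filter_dvd_card_eq_div k r]
        congr 1
        apply Finset.filter_congr
        intro j _
        exact h j
    have hle : ∀ a ∈ Ico 1 B,
        (if (∃ j ∈ Ioc (n - k) n, p ^ a ∣ u j) then 1 else 0) + #{j ∈ Ioc 0 k | p ^ a ∣ u j} ≤
        #{j ∈ Ioc (n - k) n | p ^ a ∣ u j} + (if (∃ j ∈ Ioc 0 k, p ^ a ∣ u j) then 1 else 0) := by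
      intro a _
      rw [hind, hind]
      apply term_le
      rcases hr (p ^ a) with h | ⟨r, hr1, h⟩
      · have : #{j ∈ Ioc 0 k | p ^ a ∣ u j} = 0 := by
          rw [Finset.card_eq_zero, Finset.filter_eq_empty_iff]
          intro j hj
          exact h j (hW2 j hj).1
        rw [this]
        exact Nat.zero_le _
      · rw [(hx _ r hr1 h).1, (hx _ r hr1 h).2]
        exact (div_window hr1 hkn).2.1
    rw [Finset.sum_eq_sum_iff_of_le hle]
    apply forall₂_congr
    intro a _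
    rw [hind, hind]
    rcases hr (p ^ a) with h | ⟨r, hr1, h⟩
    · have e1 : #{j ∈ Ioc 0 k | p ^ a ∣ u j} = 0 := by
        rw [Finset.card_eq_zero, Finset.filter_eq_empty_iff]
        intro j hj
        exact h j (hW2 j hj).1
      have e2 : #{j ∈ Ioc (n - k) n | p ^ a ∣ u j} = 0 := by
        rw [Finset.card_eq_zero, Finset.filter_eq_empty_iff]
        intro j hj
        exact h j (hW1 j hj).1
      rw [e1, e2]
      simp only [Nat.le_zero_eq, one_ne_zero, if_false, true_iff]
      intro r hr1 h2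
      exact absurd ((h2 r).2 dvd_rfl) (h r hr1)
    · rw [(hx _ r hr1 h).1, (hx _ r hr1 h).2]
      obtain ⟨d1, d2, d3⟩ := div_window hr1 hkn
      have hiff : ((if 1 ≤ n / r - (n - k) / r then 1 else 0) + k / r =
          n / r - (n - k) / r + (if 1 ≤ k / r then 1 else 0)) ↔ (r ≤ k → k % r ≤ n % r) := by
        by_cases hrk : r ≤ k
        · have h1 : 1 ≤ k / r := (Nat.le_div_iff_mul_le hr1).2 (by omega)
          rw [if_pos h1, if_pos (by omega), ← d1]
          constructor
          · intro h3 _; omega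
          · intro h3; have := h3 hrk; omega
        · have h1 : k / r = 0 := Nat.div_eq_of_lt (by omega)
          have h2 := d3 (by omega)
          rw [h1]
          generalize n / r - (n - k) / r = z at h2 ⊢
          simp only [Nat.le_zero_eq, one_ne_zero, if_false, hrk, false_imp_iff, iff_true]
          interval_cases z <;> simp
      rw [hiff]
      constructor
      · intro h3 r' hr' h4 h5
        have : r' = r := Nat.dvd_antisymm ((h4 r).1 ((h r).2 dvd_rfl)) ((h r').1 ((h4 r').2 dvd_rfl))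
        rw [this] at h5 ⊢
        exact h3 h5
      · intro h3 h5
        exact h3 r hr1 h h5
  have hmain : ((Ioc (n - k) n).lcm u) * ∏ i ∈ Ioc 0 k, u i =
      (∏ j ∈ Ioc (n - k) n, u j) * (Ioc 0 k).lcm u ↔
      ∀ p, p.Prime → ∀ a ∈ Ico 1 B, ∀ r, 1 ≤ r → (∀ m, p ^ a ∣ u m ↔ r ∣ m) → r ≤ k →
        k % r ≤ n % r := by
    constructor
    · intro h p hp
      exact (hprime p hp).1 (by rw [h])
    · intro h
      apply Nat.eq_of_factorization_eq (mul_ne_zero (hlcm0 _ hW1) (hprod0 _ hW2))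
        (mul_ne_zero (hprod0 _ hW1) (hlcm0 _ hW2))
      intro p
      by_cases hp : p.Prime
      · exact (hprime p hp).2 (h p hp)
      · rw [Nat.factorization_eq_zero_of_not_prime _ hp, Nat.factorization_eq_zero_of_not_prime _ hp]
  rw [hmain]
  have hdvd : ∀ e d, e ∣ d → ∀ g, g ∣ u e → g ∣ u d := by
    intro e d hed g hg
    rcases hr g with h | ⟨r, _, h⟩
    · rcases Nat.eq_zero_or_pos e with h0 | h0
      · subst h0
        rw [zero_dvd_iff] at hed
        rw [hed]; exact hg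
      · exact absurd hg (h e h0)
    · exact (h d).2 (((h e).1 hg).trans hed)
  constructor
  · intro h d hd2 hdk hne
    -- find a prime power
    have hd0 : u d ≠ 0 := hu d (by omega)
    have hldvd : d.properDivisors.lcm u ∣ u d := by
      apply Finset.lcm_dvd
      intro e he
      exact hdvd e d (Nat.mem_properDivisors.1 he).1 _ dvd_rfl
    have hl0 : d.properDivisors.lcm u ≠ 0 := fun h0 => hd0 (by rw [h0] at hldvd; exact zero_dvd_iff.1 hldvd)
    have hex : ∃ p, p.Prime ∧ (d.properDivisors.lcm u).factorization p < (u d).factorization p := by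
      by_contra hcon
      push Not at hcon
      apply hne
      apply Nat.dvd_antisymm hldvd
      rw [← Nat.factorization_le_iff_dvd hd0 hl0]
      intro p
      by_cases hp : p.Prime
      · exact hcon p hp
      · rw [Nat.factorization_eq_zero_of_not_prime _ hp]; exact Nat.zero_le _
    obtain ⟨p, hp, hlt2⟩ := hex
    set a := (u d).factorization p with ha
    have hpa : p ^ a ∣ u d := Nat.ordProj_dvd _ _
    have hnot : ∀ e ∈ d.properDivisors, ¬ p ^ a ∣ u e := by
      intro e he h1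
      have h2 : p ^ a ∣ d.properDivisors.lcm u := h1.trans (Finset.dvd_lcm he)
      have := (hp.pow_dvd_iff_le_factorization hl0).1 h2
      omega
    rcases hr (p ^ a) with h1 | ⟨r, hr1, h1⟩
    · exact absurd hpa (h1 d (by omega))
    · have hrd : r ∣ d := (h1 d).1 hpa
      have : r = d := by
        by_contra hne2
        apply hnot r
        · rw [Nat.mem_properDivisors]
          exact ⟨hrd, lt_of_le_of_ne (Nat.le_of_dvd (by omega) hrd) hne2⟩
        · exact (h1 r).2 dvd_rfl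
      subst this
      refine h p hp a ?_ r hr1 h1 hdk
      rw [Finset.mem_Ico]
      refine ⟨by omega, ?_⟩
      exact fact_lt hp hd0 (hlt p hp r (by omega) (by omega))
  · intro h p hp a ha r hr1 h1 hrk
    rw [Finset.mem_Ico] at ha
    rcases Nat.lt_or_ge r 2 with h2 | h2
    · have : r = 1 := by omega
      subst this
      simp [Nat.mod_one]
    · apply h r h2 hrk
      intro heq
      have h3 : p ^ a ∣ r.properDivisors.lcm u := by
        rw [heq]; exact (h1 r).2 dvd_rfl
      have hne0 : ∀ e ∈ r.properDivisors, u e ≠ 0 := fun e he =>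
        hu e (Nat.pos_of_mem_properDivisors he)
      have hl0 : r.properDivisors.lcm u ≠ 0 := by
        rw [heq]; exact hu r hr1
      have h4 := (hp.pow_dvd_iff_le_factorization hl0).1 h3
      rw [Finset.factorization_lcm hne0 p, Finset.le_sup_iff (by rw [Nat.bot_eq_zero]; omega)] at h4
      obtain ⟨e, he, h5⟩ := h4
      have h6 : p ^ a ∣ u e := (hp.pow_dvd_iff_le_factorization (hne0 e he)).2 h5
      have h7 := (h1 e).1 h6
      have h8 := (Nat.mem_properDivisors.1 he).2
      have h9 := Nat.pos_of_mem_properDivisors he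
      exact absurd (Nat.le_of_dvd h9 h7) (by omega)

end arith

section general

variable {P Q : ℤ}

theorem image_sub {n k : ℕ} (hkn : k ≤ n) : (range k).image (fun i => n - i) = Ioc (n - k) n := by
  ext j
  simp only [Finset.mem_image, Finset.mem_range, Finset.mem_Ioc]
  constructor
  · rintro ⟨i, hi, rfl⟩; omega
  · intro h; exact ⟨n - j, by omega, by omega⟩

theorem image_add (k : ℕ) : (range k).image (fun i => i + 1) = Ioc 0 k := by
  ext j
  simp only [Finset.mem_image, Finset.mem_range, Finset.mem_Ioc]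
  constructor
  · rintro ⟨i, hi, rfl⟩; omega
  · intro h; exact ⟨j - 1, by omega, by omega⟩

theorem prod_sub {M : Type*} [CommMonoid M] (f : ℕ → M) {n k : ℕ} (hkn : k ≤ n) :
    ∏ i ∈ range k, f (n - i) = ∏ j ∈ Ioc (n - k) n, f j := by
  rw [← image_sub hkn, Finset.prod_image]
  intro i hi j hj h
  simp only [Finset.coe_range, Set.mem_Iio] at hi hj
  simp only at h
  omega

theorem prod_add {M : Type*} [CommMonoid M] (f : ℕ → M) (k : ℕ) :
    ∏ i ∈ range k, f (i + 1) = ∏ j ∈ Ioc 0 k, f j := by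
  rw [← image_add k, Finset.prod_image]
  intro i _ j _ h
  simp only at h
  omega

theorem lcm_sub (f : ℕ → ℕ) {n k : ℕ} (hkn : k ≤ n) :
    ((range k).lcm fun i => f (n - i)) = (Ioc (n - k) n).lcm f := by
  rw [← image_sub hkn, Finset.lcm_image]
  rfl

theorem lcm_add (f : ℕ → ℕ) (k : ℕ) :
    ((range k).lcm fun i => f (i + 1)) = (Ioc 0 k).lcm f := by
  rw [← image_add k, Finset.lcm_image]
  rfl

/-- The criterion for arbitrary admissible `(P,Q)`. -/
theorem general (h : Admissible P Q) {n k : ℕ} (hk : 1 ≤ k) (hkn : k ≤ n) :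
    lcmBinom P Q n k = binom P Q n k ↔
      0 < binom P Q n k ∧ ∀ d, 2 ≤ d → d ≤ k → Essential P Q d → k % d ≤ n % d := by
  set u : ℕ → ℕ := fun j => (U P Q j).natAbs with hu_def
  have hu : ∀ j, 1 ≤ j → u j ≠ 0 := fun j hj => Int.natAbs_ne_zero.2 (U_ne_zero h hj)
  have hr : ∀ g : ℕ, (∀ n, 1 ≤ n → ¬ g ∣ u n) ∨ ∃ r, 1 ≤ r ∧ ∀ n, g ∣ u n ↔ r ∣ n := by
    intro g
    have h1 : ∀ n, g ∣ u n ↔ (g : ℤ) ∣ U P Q n := fun n => Int.natCast_dvd.symm
    simp only [h1]
    exact rank_cases h g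
  have hcore := core u hu hr hk hkn
  have hA : ((range k).lcm fun i => (U P Q (n - i)).natAbs) = (Ioc (n - k) n).lcm u :=
    lcm_sub u hkn
  have hB : ((range k).lcm fun i => (U P Q (i + 1)).natAbs) = (Ioc 0 k).lcm u := lcm_add u k
  have hC : |∏ i ∈ range k, (U P Q (n - i) : ℚ)| = ((∏ j ∈ Ioc (n - k) n, u j : ℕ) : ℚ) := by
    rw [Finset.abs_prod, ← prod_sub u hkn]
    push_cast
    apply Finset.prod_congr rfl
    intro i _
    simp only [hu_def, Nat.cast_natAbs, Int.cast_abs]
  have hD : |∏ i ∈ range k, (U P Q (i + 1) : ℚ)| = ((∏ j ∈ Ioc 0 k, u j : ℕ) : ℚ) := by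
    rw [Finset.abs_prod, ← prod_add u k]
    push_cast
    apply Finset.prod_congr rfl
    intro i _
    simp only [hu_def, Nat.cast_natAbs, Int.cast_abs]
  have hA0 : (Ioc (n - k) n).lcm u ≠ 0 := by
    intro h0
    rw [Finset.lcm_eq_zero_iff] at h0
    obtain ⟨j, hj, hj0⟩ := h0
    rw [Finset.mem_Ioc] at hj
    exact hu j (by omega) hj0
  have hB0 : (Ioc 0 k).lcm u ≠ 0 := by
    intro h0
    rw [Finset.lcm_eq_zero_iff] at h0
    obtain ⟨j, hj, hj0⟩ := h0
    rw [Finset.mem_Ioc] at hj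
    exact hu j (by omega) hj0
  have hD0 : ∏ j ∈ Ioc 0 k, u j ≠ 0 :=
    Finset.prod_ne_zero_iff.2 fun j hj => hu j (by rw [Finset.mem_Ioc] at hj; omega)
  have habs : |binom P Q n k| = ((∏ j ∈ Ioc (n - k) n, u j : ℕ) : ℚ) / ((∏ j ∈ Ioc 0 k, u j : ℕ) : ℚ) := by
    rw [binom, abs_div, hC, hD]
  have hlcm : lcmBinom P Q n k = (((Ioc (n - k) n).lcm u : ℕ) : ℚ) / (((Ioc 0 k).lcm u : ℕ) : ℚ) := by
    rw [lcmBinom, hA, hB]
  have hlpos : 0 < lcmBinom P Q n k := by
    rw [hlcm]
    apply div_pos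
    · exact_mod_cast Nat.pos_of_ne_zero hA0
    · exact_mod_cast Nat.pos_of_ne_zero hB0
  have hiff : lcmBinom P Q n k = |binom P Q n k| ↔
      ((Ioc (n - k) n).lcm u) * ∏ i ∈ Ioc 0 k, u i =
        (∏ j ∈ Ioc (n - k) n, u j) * (Ioc 0 k).lcm u := by
    rw [hlcm, habs, div_eq_div_iff (by exact_mod_cast hB0) (by exact_mod_cast hD0)]
    constructor
    · intro h1; exact_mod_cast h1
    · intro h1; exact_mod_cast h1
  have hess : (∀ d, 2 ≤ d → d ≤ k → Essential P Q d → k % d ≤ n % d) ↔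
      (∀ d, 2 ≤ d → d ≤ k → (d.properDivisors.lcm u ≠ u d) → k % d ≤ n % d) := Iff.rfl
  rw [hess, ← hcore, ← hiff]
  constructor
  · intro h1
    have h2 : 0 < binom P Q n k := by rw [← h1]; exact hlpos
    exact ⟨h2, by rw [abs_of_pos h2]; exact h1⟩
  · rintro ⟨h1, h2⟩
    rw [h2, abs_of_pos h1]

end general

section real

variable {P Q : ℤ}

theorem U_pos (_h : Admissible P Q) (hD : 0 < P ^ 2 - 4 * Q) (hP : 0 < P) {n : ℕ} (hn : 1 ≤ n) :
    0 < U P Q n := by
  have hDR : (0 : ℝ) < (P : ℝ) ^ 2 - 4 * Q := by exact_mod_cast hD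
  have hPR : (0 : ℝ) < P := by exact_mod_cast hP
  set s := Real.sqrt ((P : ℝ) ^ 2 - 4 * Q) with hs
  have hs0 : 0 < s := Real.sqrt_pos.2 hDR
  have hs2 : s ^ 2 = (P : ℝ) ^ 2 - 4 * Q := Real.sq_sqrt hDR.le
  have h1 : ((P + s) / 2 : ℝ) + (P - s) / 2 = P := by ring
  have h2 : ((P + s) / 2 : ℝ) * ((P - s) / 2) = Q := by
    have : ((P + s) / 2 : ℝ) * ((P - s) / 2) = ((P : ℝ) ^ 2 - s ^ 2) / 4 := by ring
    rw [this, hs2]; ring
  have h3 := binet ((P + s) / 2 : ℝ) ((P - s) / 2) h1 h2 n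
  have h4 : ((P - s) / 2 : ℝ) ^ n < ((P + s) / 2) ^ n := by
    calc ((P - s) / 2 : ℝ) ^ n ≤ |(P - s) / 2| ^ n := by
          rw [← abs_pow]; exact le_abs_self _
      _ < ((P + s) / 2) ^ n := by
          apply pow_lt_pow_left₀ _ (abs_nonneg _) (by omega)
          rw [abs_lt]
          constructor <;> linarith
  have h5 : 0 < ((P + s) / 2 - (P - s) / 2) * (U P Q n : ℝ) := by rw [h3]; linarith
  have h6 : ((P + s) / 2 - (P - s) / 2 : ℝ) = s := by ring
  rw [h6] at h5
  have h7 : (0 : ℝ) < U P Q n := (mul_pos_iff_of_pos_left hs0).1 h5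
  exact_mod_cast h7

theorem U_neg (P Q : ℤ) : ∀ n : ℕ, U P Q n = (-1) ^ (n + 1) * U (-P) Q n
  | 0 => by simp
  | 1 => by simp
  | (n + 2) => by
    rw [U_add_two, U_add_two, U_neg P Q (n + 1), U_neg P Q n]
    ring

theorem Admissible.neg (h : Admissible P Q) : Admissible (-P) Q := by
  refine ⟨?_, ?_, h.coprime.neg_left, ?_⟩
  · simpa using h.ne_zero
  · simpa using h.disc
  · intro a b h1 h2 m hm h3
    apply h.not_root (-a) (-b) ?_ ?_ m hm ?_
    · push_cast at h1
      linear_combination -h1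
    · linear_combination h2
    · rwa [neg_div_neg_eq]

theorem binom_pos_iff (h : Admissible P Q) (hD : 0 < P ^ 2 - 4 * Q) {n k : ℕ} (hkn : k ≤ n) :
    0 < binom P Q n k ↔ 0 < P ∨ Even (k * (n - k)) := by
  have hP : P ≠ 0 := left_ne_zero_of_mul h.ne_zero
  rcases lt_or_gt_of_ne hP with hneg | hpos
  · have hV : ∀ j, 1 ≤ j → 0 < U (-P) Q j := fun j hj =>
      U_pos h.neg (by simpa using hD) (by omega) hj
    have e : binom P Q n k = ((-1) ^ (n + 1)) ^ k * binom (-P) Q n k := by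
      have hnz : ∏ i ∈ range k, (U (-P) Q (i + 1) : ℚ) ≠ 0 :=
        Finset.prod_ne_zero_iff.2 fun i _ => by
          exact_mod_cast (hV (i + 1) (by omega)).ne'
      have e1 : ∏ i ∈ range k, (U P Q (n - i) : ℚ) =
          (∏ i ∈ range k, (-1 : ℚ) ^ (n - i + 1)) * ∏ i ∈ range k, (U (-P) Q (n - i) : ℚ) := by
        rw [← Finset.prod_mul_distrib]
        apply Finset.prod_congr rfl
        intro i _
        rw [U_neg P Q (n - i)]
        push_cast
        rfl
      have e2 : ∏ i ∈ range k, (U P Q (i + 1) : ℚ) =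
          (∏ i ∈ range k, (-1 : ℚ) ^ (i + 1 + 1)) * ∏ i ∈ range k, (U (-P) Q (i + 1) : ℚ) := by
        rw [← Finset.prod_mul_distrib]
        apply Finset.prod_congr rfl
        intro i _
        rw [U_neg P Q (i + 1)]
        push_cast
        rfl
      have hnz2 : ∏ i ∈ range k, (-1 : ℚ) ^ (i + 1 + 1) ≠ 0 :=
        Finset.prod_ne_zero_iff.2 fun i _ => pow_ne_zero _ (by norm_num)
      have e3 : ∏ i ∈ range k, (-1 : ℚ) ^ (n - i + 1) =
          ((-1) ^ (n + 1)) ^ k * ∏ i ∈ range k, (-1 : ℚ) ^ (i + 1 + 1) := by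
        rw [← Finset.card_range k, ← Finset.prod_const, Finset.card_range,
          ← Finset.prod_mul_distrib]
        apply Finset.prod_congr rfl
        intro i hi
        rw [Finset.mem_range] at hi
        rw [← pow_add]
        have : n + 1 + (i + 1 + 1) = (n - i + 1) + 2 * (i + 1) := by omega
        rw [this, pow_add (-1 : ℚ) (n - i + 1), pow_mul]
        norm_num
      rw [binom, binom, e1, e2, e3]
      field_simp
    have hVpos : 0 < binom (-P) Q n k := by
      rw [binom]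
      apply div_pos
      · apply Finset.prod_pos
        intro i hi
        rw [Finset.mem_range] at hi
        exact_mod_cast hV (n - i) (by omega)
      · apply Finset.prod_pos
        intro i _
        exact_mod_cast hV (i + 1) (by omega)
    rw [e, mul_pos_iff_of_pos_right hVpos, ← pow_mul]
    have hpar : Even (k * (n - k)) ↔ Even ((n + 1) * k) := by
      obtain ⟨m, rfl⟩ := Nat.exists_eq_add_of_le hkn
      rw [Nat.add_sub_cancel_left]
      simp only [Nat.even_mul, Nat.even_add_one, Nat.even_add]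
      tauto
    constructor
    · intro h1
      right
      rw [hpar]
      rcases Nat.even_or_odd ((n + 1) * k) with h2 | h2
      · exact h2
      · rw [h2.neg_one_pow] at h1
        norm_num at h1
    · rintro (h1 | h1)
      · omega
      · rw [hpar] at h1
        rw [h1.neg_one_pow]
        norm_num
  · have hV : ∀ j, 1 ≤ j → 0 < U P Q j := fun j hj => U_pos h hD hpos hj
    have hpos2 : 0 < binom P Q n k := by
      rw [binom]
      apply div_pos
      · apply Finset.prod_pos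
        intro i hi
        rw [Finset.mem_range] at hi
        exact_mod_cast hV (n - i) (by omega)
      · apply Finset.prod_pos
        intro i _
        exact_mod_cast hV (i + 1) (by omega)
    exact ⟨fun _ => Or.inl hpos, fun _ => hpos2⟩

/-- the homogeneous cyclotomic value `Φ_e(a,b)` -/
noncomputable def Phi (a b : ℂ) (e : ℕ) : ℂ := ∏ ζ ∈ primitiveRoots e ℂ, (a - ζ * b)

theorem pow_sub_pow_eq (a b : ℂ) {n : ℕ} (hn : 1 ≤ n) :
    a ^ n - b ^ n = ∏ e ∈ n.divisors, Phi a b e := by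
  classical
  rw [(Complex.isPrimitiveRoot_exp n (by omega)).pow_sub_pow_eq_prod_sub_mul a b (by omega),
    IsPrimitiveRoot.nthRoots_one_eq_biUnion_primitiveRoots, Finset.prod_biUnion]
  · rfl
  · intro i _ j _ hij
    exact IsPrimitiveRoot.disjoint hij

theorem Phi_one (a b : ℂ) : Phi a b 1 = a - b := by
  simp [Phi]

theorem U_eq_prod (h : Admissible P Q) {a b : ℂ} (h1 : a + b = P) (h2 : a * b = Q) {n : ℕ}
    (hn : 1 ≤ n) : (U P Q n : ℂ) = ∏ e ∈ n.divisors.erase 1, Phi a b e := by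
  have hab : a - b ≠ 0 := by
    intro h0
    apply h.disc
    have : ((P : ℂ)) ^ 2 - 4 * Q = (a - b) ^ 2 := by rw [← h1, ← h2]; ring
    rw [h0] at this
    have h3 : (((P ^ 2 - 4 * Q : ℤ)) : ℂ) = 0 := by push_cast; rw [this]; ring
    exact_mod_cast h3
  have h3 := binet a b h1 h2 n
  rw [pow_sub_pow_eq a b hn, ← Finset.mul_prod_erase _ _ (Nat.one_mem_divisors.2 (by omega)),
    Phi_one] at h3
  exact mul_left_cancel₀ hab h3

theorem isIntegral_Phi {a b : ℂ} (h1 : a + b = P) (h2 : a * b = Q) (e : ℕ) :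
    IsIntegral ℤ (Phi a b e) := by
  have key : ∀ x y : ℂ, x + y = P → x * y = Q → IsIntegral ℤ x := by
    intro x y hx hy
    refine ⟨Polynomial.X ^ 2 - Polynomial.C P * Polynomial.X + Polynomial.C Q, ?_, ?_⟩
    · have : (Polynomial.X ^ 2 - Polynomial.C P * Polynomial.X + Polynomial.C Q : Polynomial ℤ) =
          Polynomial.X ^ 2 + (Polynomial.C (-P) * Polynomial.X + Polynomial.C Q) := by
        simp only [Polynomial.C_neg]; ring
      rw [this]
      apply Polynomial.monic_X_pow_add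
      exact Polynomial.degree_linear_lt.trans_le (by norm_num)
    · simp only [Polynomial.eval₂_add, Polynomial.eval₂_sub, Polynomial.eval₂_mul,
        Polynomial.eval₂_pow, Polynomial.eval₂_X, Polynomial.eval₂_C]
      simp only [algebraMap_int_eq, eq_intCast]
      rw [← hx, ← hy]
      ring
  have ha := key a b h1 h2
  have hb := key b a (by rw [add_comm]; exact h1) (by rw [mul_comm]; exact h2)
  apply IsIntegral.prod
  intro ζ hζ
  have hζ' : IsIntegral ℤ ζ := by
    rcases Nat.eq_zero_or_pos e with h0 | h0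
    · subst h0
      simp at hζ
    · exact (isPrimitiveRoot_of_mem_primitiveRoots hζ).isIntegral h0
  exact ha.sub (hζ'.mul hb)

/-- `Φ_d(a,b)` is a rational integer for `d ≥ 2`. -/
theorem Phi_int (h : Admissible P Q) {a b : ℂ} (h1 : a + b = P) (h2 : a * b = Q) :
    ∀ d : ℕ, 2 ≤ d → ∃ c : ℤ, (c : ℂ) = Phi a b d := by
  intro d
  induction d using Nat.strong_induction_on with
  | _ d ih =>
    intro hd
    have hU := U_eq_prod h h1 h2 (n := d) (by omega)
    have hdiv : d.divisors.erase 1 = insert d (d.properDivisors.erase 1) := by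
      rw [← Nat.insert_self_properDivisors (by omega : d ≠ 0), Finset.erase_insert_of_ne (by omega)]
    have hnot : d ∉ d.properDivisors.erase 1 := by
      rw [Finset.mem_erase, Nat.mem_properDivisors]
      omega
    rw [hdiv, Finset.prod_insert hnot] at hU
    choose! c hc using ih
    have hM : ∏ e ∈ d.properDivisors.erase 1, Phi a b e =
        ((∏ e ∈ d.properDivisors.erase 1, c e : ℤ) : ℂ) := by
      push_cast
      apply Finset.prod_congr rfl
      intro e he
      rw [Finset.mem_erase, Nat.mem_properDivisors] at he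
      have he0 : e ≠ 0 := by
        rintro rfl
        have := he.2.1
        rw [zero_dvd_iff] at this
        omega
      exact (hc e he.2.2 (by omega)).symm
    rw [hM] at hU
    have hU0 : (U P Q d : ℂ) ≠ 0 := by exact_mod_cast U_ne_zero h (n := d) (by omega)
    have hM0 : ((∏ e ∈ d.properDivisors.erase 1, c e : ℤ) : ℂ) ≠ 0 := by
      intro h0
      rw [h0, mul_zero] at hU
      exact hU0 hU
    set M : ℤ := ∏ e ∈ d.properDivisors.erase 1, c e with hMdef
    have hrat : algebraMap ℚ ℂ ((U P Q d : ℚ) / (M : ℚ)) = Phi a b d := by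
      rw [map_div₀]
      simp only [eq_ratCast, Rat.cast_intCast]
      rw [hU]
      field_simp
    have hint : IsIntegral ℤ (algebraMap ℚ ℂ ((U P Q d : ℚ) / (M : ℚ))) := by
      rw [hrat]; exact isIntegral_Phi h1 h2 d
    rw [isIntegral_algebraMap_iff (algebraMap ℚ ℂ).injective] at hint
    obtain ⟨y, hy⟩ := IsIntegrallyClosed.isIntegral_iff.1 hint
    refine ⟨y, ?_⟩
    rw [← hrat, ← hy]
    simp

theorem norm_factor (h : Admissible P Q) (hD : 0 < P ^ 2 - 4 * Q) {x y : ℝ} (h1 : x + y = P)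
    (h2 : x * y = Q) {ζ : ℂ} (hζ : ‖ζ‖ = 1) (hne1 : ζ ≠ 1) (hne2 : ζ ≠ -1) :
    1 < ‖(x : ℂ) - ζ * y‖ := by
  have hQ : Q ≠ 0 := right_ne_zero_of_mul h.ne_zero
  have hP : P ≠ 0 := left_ne_zero_of_mul h.ne_zero
  have hn : ζ.re ^ 2 + ζ.im ^ 2 = 1 := by
    have : Complex.normSq ζ = 1 := by rw [Complex.normSq_eq_norm_sq, hζ]; norm_num
    rw [Complex.normSq_apply] at this
    nlinarith
  have him : ζ.im ≠ 0 := by
    intro h0
    rw [h0] at hn
    have : (ζ.re - 1) * (ζ.re + 1) = 0 := by nlinarith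
    rcases mul_eq_zero.1 this with h3 | h3
    · apply hne1
      apply Complex.ext
      · simp; linarith
      · simp [h0]
    · apply hne2
      apply Complex.ext
      · simp; linarith
      · simp [h0]
  have hre : |ζ.re| < 1 := by
    rw [abs_lt]
    have : 0 < ζ.im ^ 2 := by positivity
    constructor <;> nlinarith
  have hsq : ‖(x : ℂ) - ζ * y‖ ^ 2 = x ^ 2 + y ^ 2 - 2 * (x * y) * ζ.re := by
    rw [← Complex.normSq_eq_norm_sq, Complex.normSq_apply]
    simp only [Complex.sub_re, Complex.sub_im, Complex.mul_re, Complex.mul_im, Complex.ofReal_re,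
      Complex.ofReal_im, mul_zero, sub_zero, zero_sub]
    have : (x - (ζ.re * y)) * (x - ζ.re * y) + -(0 + ζ.im * y) * -(0 + ζ.im * y) =
      x ^ 2 - 2 * (x * y) * ζ.re + (ζ.re ^ 2 + ζ.im ^ 2) * y ^ 2 := by ring
    nlinarith [this, hn]
  have hsum : x ^ 2 + y ^ 2 = (P : ℝ) ^ 2 - 2 * Q := by rw [← h1, ← h2]; ring
  have hlt : 2 * (x * y) * ζ.re < 2 * |(Q : ℝ)| := by
    rw [h2]
    have h3 : (Q : ℝ) * ζ.re ≤ |(Q : ℝ)| * |ζ.re| := by
      rw [← abs_mul]; exact le_abs_self _
    have h4 : 0 < |(Q : ℝ)| := abs_pos.2 (by exact_mod_cast hQ)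
    nlinarith
  have hge : (1 : ℝ) ≤ (P : ℝ) ^ 2 - 2 * Q - 2 * |(Q : ℝ)| := by
    have h5 : (1 : ℤ) ≤ P ^ 2 - 2 * Q - 2 * |Q| := by
      rcases lt_or_gt_of_ne hQ with h6 | h6
      · rw [abs_of_neg h6]
        have : 0 < P ^ 2 := by positivity
        linarith
      · rw [abs_of_pos h6]; linarith
    exact_mod_cast h5
  have hfin : 1 < ‖(x : ℂ) - ζ * y‖ ^ 2 := by
    rw [hsq, hsum]; linarith
  have hnn := norm_nonneg ((x : ℂ) - ζ * y)
  nlinarith

/-- For positive discriminant every `d ≥ 3` is essential. -/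
theorem essential_of_three_le (h : Admissible P Q) (hD : 0 < P ^ 2 - 4 * Q) {d : ℕ} (hd : 3 ≤ d) :
    Essential P Q d := by
  have hDR : (0 : ℝ) < (P : ℝ) ^ 2 - 4 * Q := by exact_mod_cast hD
  set s := Real.sqrt ((P : ℝ) ^ 2 - 4 * Q) with hs
  have hs2 : s ^ 2 = (P : ℝ) ^ 2 - 4 * Q := Real.sq_sqrt hDR.le
  set x : ℝ := (P + s) / 2 with hx
  set y : ℝ := (P - s) / 2 with hy
  have r1 : x + y = P := by rw [hx, hy]; ring
  have r2 : x * y = Q := by
    have : x * y = ((P : ℝ) ^ 2 - s ^ 2) / 4 := by rw [hx, hy]; ring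
    rw [this, hs2]; ring
  have h1 : (x : ℂ) + (y : ℂ) = P := by exact_mod_cast congrArg (fun t : ℝ => (t : ℂ)) r1
  have h2 : (x : ℂ) * (y : ℂ) = Q := by exact_mod_cast congrArg (fun t : ℝ => (t : ℂ)) r2
  -- the norm of `Φ_d`
  have hnorm : 1 < ‖Phi x y d‖ := by
    rw [Phi, norm_prod]
    have hne : (primitiveRoots d ℂ).Nonempty := by
      rw [← Finset.card_pos, Complex.card_primitiveRoots]
      exact Nat.totient_pos.2 (by omega)
    have : ∏ ζ ∈ primitiveRoots d ℂ, (1 : ℝ) < ∏ ζ ∈ primitiveRoots d ℂ, ‖(x : ℂ) - ζ * y‖ := by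
      apply Finset.prod_lt_prod_of_nonempty (fun _ _ => one_pos) _ hne
      intro ζ hζ
      have hp := isPrimitiveRoot_of_mem_primitiveRoots hζ
      apply norm_factor h hD r1 r2
      · exact hp.norm'_eq_one (by omega)
      · exact hp.ne_one (by omega)
      · rintro rfl
        have h3 := hp.dvd_of_pow_eq_one 2 (by norm_num)
        exact absurd (Nat.le_of_dvd (by norm_num) h3) (by omega)
    simpa using this
  have hPhi : ∀ e : ℕ, 2 ≤ e → ∃ c : ℤ, (c : ℂ) = Phi x y e := Phi_int h h1 h2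
  choose! c hc using hPhi
  have hUc : ∀ n, 1 ≤ n → U P Q n = ∏ e ∈ n.divisors.erase 1, c e := by
    intro n hn
    have h3 := U_eq_prod h h1 h2 hn
    have h4 : ((∏ e ∈ n.divisors.erase 1, c e : ℤ) : ℂ) = ∏ e ∈ n.divisors.erase 1, Phi x y e := by
      push_cast
      apply Finset.prod_congr rfl
      intro e he
      rw [Finset.mem_erase, Nat.mem_divisors] at he
      have he0 : e ≠ 0 := by
        rintro rfl
        have := he.2.1
        rw [zero_dvd_iff] at this
        omega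
      exact hc e (by omega)
    rw [← h4] at h3
    exact_mod_cast h3
  set M : ℤ := ∏ e ∈ d.properDivisors.erase 1, c e with hM
  have hdiv : d.divisors.erase 1 = insert d (d.properDivisors.erase 1) := by
    rw [← Nat.insert_self_properDivisors (by omega : d ≠ 0), Finset.erase_insert_of_ne (by omega)]
  have hnot : d ∉ d.properDivisors.erase 1 := by
    rw [Finset.mem_erase, Nat.mem_properDivisors]
    omega
  have hUd : U P Q d = c d * M := by
    rw [hUc d (by omega), hdiv, Finset.prod_insert hnot]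
  have hM0 : M ≠ 0 := by
    intro h0
    rw [h0, mul_zero] at hUd
    exact U_ne_zero h (by omega) hUd
  have hcd : 1 < (c d).natAbs := by
    have : (1 : ℝ) < ‖((c d : ℤ) : ℂ)‖ := by rw [hc d (by omega)]; exact hnorm
    rw [Complex.norm_intCast] at this
    have h3 : (1 : ℤ) < |c d| := by exact_mod_cast this
    rw [Int.abs_eq_natAbs] at h3
    exact_mod_cast h3
  have hdvd : (d.properDivisors.lcm fun e => (U P Q e).natAbs) ∣ M.natAbs := by
    apply Finset.lcm_dvd
    intro e he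
    rw [Int.natAbs_dvd_natAbs]
    have hepos := Nat.pos_of_mem_properDivisors he
    rw [hUc e hepos]
    apply Finset.prod_dvd_prod_of_subset
    intro f hf
    rw [Finset.mem_erase, Nat.mem_divisors] at hf
    rw [Nat.mem_properDivisors] at he
    rw [Finset.mem_erase, Nat.mem_properDivisors]
    exact ⟨hf.1, hf.2.1.trans he.1, lt_of_le_of_lt (Nat.le_of_dvd hepos hf.2.1) he.2⟩
  intro heq
  rw [heq] at hdvd
  have hle := Nat.le_of_dvd (Int.natAbs_pos.2 hM0) hdvd
  rw [hUd, Int.natAbs_mul] at hle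
  have hMpos := Int.natAbs_pos.2 hM0
  nlinarith

theorem essential_two : Essential P Q 2 ↔ |P| ≠ 1 := by
  have h1 : Nat.properDivisors 2 = {1} := by decide
  rw [Essential, h1, Finset.lcm_singleton]
  have h2 : U P Q 2 = P := by
    rw [show (2 : ℕ) = 0 + 2 by rfl, U_add_two]; simp
  rw [h2]
  simp only [U_one, Int.natAbs_one, normalize_eq]
  rw [Int.abs_eq_natAbs]
  constructor
  · intro h3 h4; apply h3; exact_mod_cast h4.symm
  · intro h3 h4; apply h3; exact_mod_cast h4.symm

end real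

/-- **Main theorem.**  Let `(P,Q)` be admissible and `1 ≤ k ≤ n`.

* In general the lcm-analogue equals the `U`-binomial coefficient iff the latter is positive and
  `k mod d ≤ n mod d` for every essential `d` with `2 ≤ d ≤ k`.
* If the discriminant `P² - 4Q` is positive, this holds iff (`P > 0` or `k (n - k)` is even) and
  `k mod d ≤ n mod d` for all `2 ≤ d ≤ k`, where `d = 2` is left out if `|P| = 1`. -/
theorem result {P Q : ℤ} (h : Admissible P Q) {n k : ℕ} (hk : 1 ≤ k) (hkn : k ≤ n) :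
    (lcmBinom P Q n k = binom P Q n k ↔
      0 < binom P Q n k ∧ ∀ d, 2 ≤ d → d ≤ k → Essential P Q d → k % d ≤ n % d) ∧
    (0 < P ^ 2 - 4 * Q →
      (lcmBinom P Q n k = binom P Q n k ↔
        (0 < P ∨ Even (k * (n - k))) ∧
          ∀ d, 2 ≤ d → d ≤ k → ¬ (d = 2 ∧ |P| = 1) → k % d ≤ n % d)) := by
  refine ⟨general h hk hkn, fun hD => ?_⟩
  rw [general h hk hkn, binom_pos_iff h hD hkn]
  apply and_congr_right
  intro _
  apply forall_congr'
  intro d
  apply forall_congr'
  intro hd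
  have : Essential P Q d ↔ ¬ (d = 2 ∧ |P| = 1) := by
    rcases Nat.lt_or_ge d 3 with h3 | h3
    · have : d = 2 := by omega
      subst this
      rw [essential_two]
      simp
    · have h4 := essential_of_three_le h hD h3
      constructor
      · rintro _ ⟨h5, _⟩; omega
      · intro _; exact h4
  rw [this]

end Pool.Agent.Results.MP_763eff_nt.LcmBinomial
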